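import Pool.Agent.Y178.ZN.Fin

/-!
# The cross-polytope is not the worst body for zonoid approximation in any large dimension

For an origin-symmetric convex body `K ⊆ ℝⁿ` let `λ(K)` be the least `λ ≥ 1` such that
`K ⊆ Z ⊆ λ K` for some zonoid `Z`, and let `C_n` be the cross-polytope.

Idea.  Let `λ(K)` be bounded below by a certificate: vectors `w` of `K` with weights `α`, and
vectors `b` with `|⟪b, x⟫| ≤ 1` on `K`, such that `∑ α_w |⟪w, v⟫|` is at most the mean of the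
`|⟪b, v⟫|`, for all `v`; then `λ(K) ≥ ∑ α_w`.  The Kerdock bodies of dimension `4 ^ t` have
certificates for `2 ^ t - 10`.  If `K_i` has a certificate for `λ_i`, then the `ℓ₁`-sum of the
`K_i` has a certificate for `E |∑ ε_i λ_i|`, `ε_i` independent random signs (take the vectors
`∑ ε_i b_i`).  If `4 ^ (s + 3) ≤ n < 4 ^ (s + 4)`, `s ≥ 7`, then one of `30` such sums of Kerdock
bodies of dimensions `4 ^ (s + e)`, `0 ≤ e ≤ 3`, has total dimension at most `n` and
`E |∑ ε_i λ_i| > λ(C_n)`; here `λ(C_n) ≤ E |ε_1 + ... + ε_n| ≤ √(0.63665 n)` by Wallis' product.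
-/

set_option autoImplicit false

namespace Pool.Agent.Results.MP_99e7cc_gt.AllLargeDimensions

open Pool.Agent.Y178.ZN

/-- **The cross-polytope is not the worst body for zonoid approximation in any large dimension.**

* For every `n ≥ 4 ^ 10` there is an origin-symmetric convex body `K ⊆ ℝⁿ` with
  `λ(K) > λ(C_n)`.
* For every `n ≥ 4 ^ 13` there is an origin-symmetric convex body `K ⊆ ℝⁿ` with
  `λ(K) > λ(C_n)` and `λ(K) ≥ 1.011 λ(C_n)`.
* If `t ≥ 6`, `4 ^ t ≤ n` and `637 n < 1000 (2 ^ t - 10) ^ 2`, then there is an origin-symmetric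
  convex body `K ⊆ ℝⁿ` with `λ(K) > λ(C_n)` and `λ(K) ≥ 2 ^ t - 10`.

The sets of which `λ` is the infimum are nonempty for all these bodies. -/
theorem result :
    (∀ n : ℕ, 4 ^ 10 ≤ n → ∃ K : Set (EuclideanSpace ℝ (Fin n)), IsSymmBody K ∧
      (zonoidRatios K).Nonempty ∧ (zonoidRatios (crossPolytope n)).Nonempty ∧
      zonoidConst (crossPolytope n) < zonoidConst K) ∧
    (∀ n : ℕ, 4 ^ 13 ≤ n → ∃ K : Set (EuclideanSpace ℝ (Fin n)), IsSymmBody K ∧
      (zonoidRatios K).Nonempty ∧ (zonoidRatios (crossPolytope n)).Nonempty ∧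
      zonoidConst (crossPolytope n) < zonoidConst K ∧
      1011 / 1000 * zonoidConst (crossPolytope n) ≤ zonoidConst K) ∧
    (∀ t n : ℕ, 6 ≤ t → 4 ^ t ≤ n → 637 * (n : ℝ) < 1000 * ((2 : ℝ) ^ t - 10) ^ 2 →
      ∃ K : Set (EuclideanSpace ℝ (Fin n)), IsSymmBody K ∧
      (zonoidRatios K).Nonempty ∧ (zonoidRatios (crossPolytope n)).Nonempty ∧
      zonoidConst (crossPolytope n) < zonoidConst K ∧ (2 : ℝ) ^ t - 10 ≤ zonoidConst K) := by
  refine ⟨fun n hn => ?_, fun n hn => ?_, fun t n ht hn h => ?_⟩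
  · obtain ⟨Λ, hΛ, hc, hlt⟩ := main_a n hn
    have hn' : 1000000 ≤ n := le_trans (by norm_num) hn
    obtain ⟨K, h1, h2, h3, h4, -, -⟩ := conclude n (by omega) (63665 / 100000) (by norm_num)
      (wallis_b (n / 2) (by omega)) Λ 1 le_rfl hc hΛ hlt
    exact ⟨K, h1, h2, h3, h4⟩
  · obtain ⟨Λ, hΛ, hc, hlt⟩ := main_b n hn
    have hn' : 1000000 ≤ n := le_trans (by norm_num) hn
    obtain ⟨K, h1, h2, h3, h4, h5, -⟩ := conclude n (by omega) (63665 / 100000) (by norm_num)
      (wallis_b (n / 2) (by omega)) Λ (1011 / 1000) (by norm_num) hc hΛ hlt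
    exact ⟨K, h1, h2, h3, h4, h5⟩
  · have h64 : (64 : ℝ) ≤ 2 ^ t := by
      calc (64 : ℝ) = 2 ^ 6 := by norm_num
        _ ≤ 2 ^ t := pow_le_pow_right₀ (by norm_num) ht
    have hpos : (0 : ℝ) ≤ (2 : ℝ) ^ t - 10 := by linarith
    have hn' : 4001 ≤ n := by
      refine le_trans ?_ hn
      calc 4001 ≤ 4 ^ 6 := by norm_num
        _ ≤ 4 ^ t := Nat.pow_le_pow_right (by norm_num) ht
    obtain ⟨K, h1, h2, h3, h4, -, h6⟩ := conclude n (by omega) (637 / 1000) (by norm_num)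
      (wallis_a (n / 2) (by omega)) ((2 : ℝ) ^ t - 10) 1 le_rfl
      ((cert_four_pow t (by omega)).mono hpos hn) hpos (by linarith)
    exact ⟨K, h1, h2, h3, h4, h6⟩

end Pool.Agent.Results.MP_99e7cc_gt.AllLargeDimensions
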